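import Pool.Agent.K9h33.SXT.Sub
import Pool.Agent.K9h33.NOD.Gen

/-!
Generic sextics: the parameters are algebraic over the coefficients.
-/

set_option autoImplicit false
set_option linter.unusedSectionVars false
set_option linter.unusedVariables false
set_option linter.unusedSimpArgs false

open MvPolynomial

namespace Pool.Agent.K9h33.SXT

open Pool.Agent.K9h33.NOD (cD cDd chain coeff_cD cDd_apply cD_C cD_X)

variable {N : ℕ} (hN : 6 ≤ N)

/-- the exponents -/
abbrev Ex (N : ℕ) : Type := {d : Fin N →₀ ℕ // d.degree = 6}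

lemma finite_ex (N : ℕ) : Finite (Ex N) :=
  ((Finsupp.finite_of_degree_le 6).subset fun I (hI : I.degree = 6) => hI.le).to_subtype

noncomputable instance : Fintype (Ex N) := @Fintype.ofFinite _ (finite_ex N)

/-- the monomials which have to vanish -/
def E0 (d : Fin N →₀ ℕ) : Prop := ∃ k : Fin 9, d = vec hN (mu k)

lemma mu_sum (k : Fin 9) : ∑ i, mu k i = 6 := by
  revert k
  decide

lemma mu_inj {k l : Fin 9} (h : mu k = mu l) : k = l := by
  revert k l
  decide

section

variable {R : Type*} [CommRing R] (x : Ex N → R)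

open Classical in
/-- the generic sextic in special position -/
noncomputable def fz : MvPolynomial (Fin N) R :=
  ∑ d : Ex N, if E0 hN d.1 then 0 else monomial d.1 (x d)

lemma coeff_fz {d : Fin N →₀ ℕ} (hd : d.degree = 6) (h0 : ¬ E0 hN d) :
    coeff d (fz hN x) = x ⟨d, hd⟩ := by
  classical
  rw [fz, coeff_sum, Finset.sum_eq_single ⟨d, hd⟩]
  · rw [if_neg h0, coeff_monomial, if_pos rfl]
  · intro b _ hb
    split_ifs
    · exact coeff_zero _
    · rw [coeff_monomial, if_neg]
      exact fun h => hb (Subtype.ext h)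
  · simp

lemma coeff_fz0 {d : Fin N →₀ ℕ} (h0 : E0 hN d) : coeff d (fz hN x) = 0 := by
  classical
  rw [fz, coeff_sum]
  refine Finset.sum_eq_zero fun b _ => ?_
  split_ifs with h
  · exact coeff_zero _
  · rw [coeff_monomial, if_neg]
    rintro rfl
    exact h h0

lemma coeff_fz' {d : Fin N →₀ ℕ} (hd : d.degree ≠ 6) : coeff d (fz hN x) = 0 := by
  classical
  rw [fz, coeff_sum]
  refine Finset.sum_eq_zero fun b _ => ?_
  split_ifs with h
  · exact coeff_zero _
  · rw [coeff_monomial, if_neg]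
    rintro rfl
    exact hd b.2

lemma hom_fz : (fz hN x).IsHomogeneous 6 := by
  intro d hd
  by_contra h
  apply hd
  apply coeff_fz'
  intro h1
  apply h
  rw [← h1, Finsupp.degree_eq_weight_one]
  rfl

lemma map_fz {S : Type*} [CommRing S] (φ : R →+* S) :
    map φ (fz hN x) = fz hN fun d => φ (x d) := by
  classical
  rw [fz, map_sum, fz]
  refine Finset.sum_congr rfl fun d _ => ?_
  split_ifs
  · exact map_zero _
  · exact map_monomial _ _ _

/-- the parameters -/
noncomputable def pp (k : Fin 9) : R := x ⟨vec hN (mu k), by rw [vec_degree, mu_sum]⟩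

/-- the generic sextic -/
noncomputable def fo : MvPolynomial (Fin N) R := aeval (sbi hN (pp hN x)) (fz hN x)

lemma hom_fo : (fo hN x).IsHomogeneous 6 := hom_aeval (hom_fz hN x) (hom_sbi hN (pp hN x))

/-- its coefficients -/
noncomputable def co (d : Ex N) : R := coeff d.1 (fo hN x)

lemma sb_fo : aeval (sb hN (pp hN x)) (fo hN x) = fz hN x := sb_sbi' hN (pp hN x) (fz hN x)

/-- the matrix of the linear system -/
noncomputable def MM (x : Ex N → R) : Matrix (Fin 9) (Fin 9) R := fun k l =>
  coeff (vec hN (mu k)) (pderiv (io hN (il l)) (fz hN x) * X (io hN (jl l)))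

lemma MM_map {S : Type*} [CommRing S] (φ : R →+* S) :
    (MM hN x).map φ = MM hN fun d => φ (x d) := by
  ext k l
  rw [Matrix.map_apply, MM, MM, ← map_fz, ← coeff_map, map_mul, pderiv_map, map_X]

lemma coeff_pX (f : MvPolynomial (Fin N) R) (v : Fin 6 → ℕ) (i j : Fin 6) :
    coeff (vec hN v) (pderiv (io hN i) f * X (io hN j)) =
      if 1 ≤ v j then coeff (vec hN (v - Pi.single j 1 + Pi.single i 1)) f *
        ((v - Pi.single j 1 : Fin 6 → ℕ) i + 1 : ℕ) else 0 := by
  classical
  rw [coeff_mul_X']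
  have h0 : io hN j ∈ (vec hN v).support ↔ 1 ≤ v j := by
    rw [Finsupp.mem_support_iff, vec_apply]
    omega
  by_cases h : 1 ≤ v j
  · rw [if_pos (h0.2 h), if_pos h]
    have h1 : v = (v - Pi.single j 1) + Pi.single j 1 := by
      funext i'
      by_cases hi : i' = j
      · subst hi
        simp
        omega
      · simp [Pi.single_apply, hi]
    have h2 : vec hN v - Finsupp.single (io hN j) 1 = vec hN (v - Pi.single j 1) := by
      have h3 : vec hN v = vec hN (v - Pi.single j 1) + Finsupp.single (io hN j) 1 := by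
        rw [← vec_single, ← vec_add, ← h1]
      rw [h3, add_tsub_cancel_right]
    rw [h2, coeff_pderiv, vec_add, vec_single, vec_apply]
    push_cast
    ring
  · rw [if_neg (fun h' => h (h0.1 h')), if_neg h]

end

/-- the monomials of a special sextic -/
def s5 : Finset (Fin 6 → ℕ) := {![5, 0, 0, 1, 0, 0], ![3, 2, 1, 0, 0, 0], ![1, 4, 0, 0, 1, 0],
  ![0, 5, 0, 0, 0, 1], ![4, 0, 1, 0, 1, 0]}

open Classical in
/-- the special sextic -/
noncomputable def pt (N : ℕ) (hN : 6 ≤ N) (d : Ex N) : ℚ := if ∃ s ∈ s5, d.1 = vec hN s then 1 else 0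

lemma coeff_pt (v : Fin 6 → ℕ) (hv : ∑ i, v i = 6) :
    coeff (vec hN v) (fz hN (pt N hN)) = if v ∈ s5 then 1 else 0 := by
  classical
  by_cases h0 : E0 hN (vec hN v)
  · rw [coeff_fz0 hN _ h0, if_neg]
    obtain ⟨k, hk⟩ := h0
    rw [vec_inj] at hk
    rw [hk]
    have h1 : ∀ k, mu k ∉ s5 := by decide
    exact h1 k
  · rw [coeff_fz hN _ (by rw [vec_degree, hv]) h0, pt]
    congr 1
    apply propext
    constructor
    · rintro ⟨s, hs, h1⟩
      rw [vec_inj] at h1
      rwa [h1]
    · intro h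
      exact ⟨v, h, rfl⟩

/-- the entries of the matrix of the special sextic -/
def ent (k l : Fin 9) : ℕ :=
  if 1 ≤ mu k (jl l) ∧ (mu k - Pi.single (jl l) 1 + Pi.single (il l) 1) ∈ s5 then
    (mu k - Pi.single (jl l) 1 : Fin 6 → ℕ) (il l) + 1 else 0

lemma MM_pt (k l : Fin 9) : MM hN (pt N hN) k l = (ent k l : ℚ) := by
  have hs : ∑ i, (mu k - Pi.single (jl l) 1 + Pi.single (il l) 1 : Fin 6 → ℕ) i = 6 ∨
      ¬ 1 ≤ mu k (jl l) := by
    revert k l
    decide
  rw [MM, coeff_pX, ent]
  by_cases h : 1 ≤ mu k (jl l)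
  · rw [if_pos h, coeff_pt hN _ (hs.resolve_right (not_not.2 h))]
    by_cases h2 : (mu k - Pi.single (jl l) 1 + Pi.single (il l) 1) ∈ s5
    · rw [if_pos h2, if_pos ⟨h, h2⟩, one_mul]
    · rw [if_neg h2, if_neg fun h3 => h2 h3.2, zero_mul, Nat.cast_zero]
  · rw [if_neg h, if_neg fun h3 => h h3.1, Nat.cast_zero]

lemma ent_diag (k : Fin 9) : ent k k = 1 := by
  revert k
  decide

lemma ent_upper (k l : Fin 9) (h : k < l) : ent k l = 0 := by
  revert k l
  decide

lemma det_pt : (MM hN (pt N hN)).det = 1 := by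
  rw [Matrix.det_of_isLowerTriangular]
  · refine Finset.prod_eq_one fun k _ => ?_
    rw [MM_pt, ent_diag, Nat.cast_one]
  · intro k l hkl
    rw [MM_pt, ent_upper k l hkl, Nat.cast_zero]

lemma det_ne {Ω : Type*} [Field Ω] [CharZero Ω] {x : Ex N → Ω} (hx : AlgebraicIndependent ℚ x) :
    (MM hN x).det ≠ 0 := by
  intro h
  have h1 : (MM hN (X : Ex N → MvPolynomial (Ex N) ℚ)).det = 0 := by
    apply hx
    change aeval x (MM hN X).det = aeval x 0
    rw [map_zero]
    have h2 : MM hN x = (aeval x : MvPolynomial (Ex N) ℚ →ₐ[ℚ] Ω).toRingHom.mapMatrix (MM hN X) := by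
      rw [RingHom.mapMatrix_apply, MM_map]
      congr 1
      funext d
      exact (aeval_X _ _).symm
    rw [h2, ← RingHom.map_det] at h
    exact h
  have h3 := congrArg (eval (pt N hN)) h1
  rw [RingHom.map_det, RingHom.mapMatrix_apply, MM_map, map_zero] at h3
  simp only [eval_X] at h3
  rw [det_pt] at h3
  exact one_ne_zero h3

end Pool.Agent.K9h33.SXT
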