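import Pool.Agent.K9h33.SXT.Gen

/-!
Generic sextics: the parameters are algebraic over the coefficients.
-/

set_option autoImplicit false
set_option linter.unusedSectionVars false
set_option linter.unusedVariables false
set_option linter.unusedSimpArgs false

open MvPolynomial

namespace Pool.Agent.K9h33.SXT

open Pool.Agent.K9h33.NOD (cD cDd chain coeff_cD cDd_apply cD_C cD_X)

variable {N : ℕ} (hN : 6 ≤ N) {Ω : Type} [Field Ω] [CharZero Ω] (x : Ex N → Ω)

/-- the field generated by the coefficients -/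
noncomputable abbrev kz : IntermediateField ℚ Ω :=
  IntermediateField.adjoin ℚ (Set.range (co hN x))

lemma sum_hom {R : Type*} [CommRing R] {f : MvPolynomial (Fin N) R} (hf : f.IsHomogeneous 6) :
    ∑ d : Ex N, monomial d.1 (coeff d.1 f) = f := by
  classical
  ext d
  rw [coeff_sum]
  simp only [coeff_monomial]
  by_cases hd : d.degree = 6
  · rw [Finset.sum_eq_single ⟨d, hd⟩]
    · rw [if_pos rfl]
    · intro b _ hb
      rw [if_neg]
      exact fun h => hb (Subtype.ext h)
    · simp
  · rw [hf.coeff_eq_zero hd]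
    refine Finset.sum_eq_zero fun b _ => ?_
    rw [if_neg]
    rintro rfl
    exact hd b.2

/-- the generic sextic over the field generated by the coefficients -/
noncomputable def fk : MvPolynomial (Fin N) (kz hN x) :=
  ∑ d : Ex N, monomial d.1 ⟨co hN x d, IntermediateField.subset_adjoin ℚ _ (Set.mem_range_self d)⟩

lemma map_fk : map (algebraMap (kz hN x) Ω) (fk hN x) = fo hN x := by
  rw [fk, map_sum]
  simp only [map_monomial]
  exact sum_hom (hom_fo hN x)

section der

variable (D : Derivation (kz hN x) Ω Ω)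

/-- the derivatives of the generic polynomial -/
noncomputable def PP (v : Fin N) : MvPolynomial (Fin N) Ω :=
  aeval (sb hN (pp hN x)) (pderiv v (fk hN x))

lemma aeval_fk : aeval (sb hN (pp hN x)) (fk hN x) = fz hN x := by
  rw [← sb_fo hN x, ← map_fk, aeval_map_algebraMap]

lemma cD_sb (v : Fin N) : cD D (sb hN (pp hN x) v) =
    ∑ l : Fin 9, if io hN (il l) = v then C (D (pp hN x l)) * X (io hN (jl l)) else 0 := by
  rw [sb, ← cDd_apply, map_add, cDd_apply, cD_X, zero_add, map_sum]
  refine Finset.sum_congr rfl fun l _ => ?_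
  split_ifs
  · rw [Derivation.leibniz, cDd_apply, cDd_apply, cD_X, cD_C, smul_zero, zero_add, smul_eq_mul,
      mul_comm]
  · exact map_zero _

lemma main1 : cD D (fz hN x) =
    ∑ l : Fin 9, PP hN x (io hN (il l)) * (C (D (pp hN x l)) * X (io hN (jl l))) := by
  have h1 := chain (cDd D) (sb hN (pp hN x)) (fk hN x)
  rw [aeval_fk] at h1
  have h2 : cD D (fz hN x) = ∑ v, PP hN x v * cD D (sb hN (pp hN x) v) := h1
  rw [h2]
  simp only [cD_sb, Finset.mul_sum]
  rw [Finset.sum_comm]
  refine Finset.sum_congr rfl fun l _ => ?_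
  rw [Finset.sum_eq_single (io hN (il l))]
  · rw [if_pos rfl]
  · intro v _ hv
    rw [if_neg (Ne.symm hv), mul_zero]
  · simp

lemma pd_sb (w v : Fin N) : pderiv w (sb hN (pp hN x) v) =
    (if v = w then 1 else 0) +
      ∑ l : Fin 9, if io hN (il l) = v then (if io hN (jl l) = w then C (pp hN x l) else 0)
        else 0 := by
  rw [sb, map_add, pderiv_X, Pi.single_apply, map_sum]
  congr 1
  refine Finset.sum_congr rfl fun l _ => ?_
  by_cases h : io hN (il l) = v
  · rw [if_pos h, if_pos h, pderiv_C_mul, pderiv_X, Pi.single_apply]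
    split_ifs <;> simp
  · rw [if_neg h, if_neg h, map_zero]

lemma main2 (w : Fin N) : pderiv w (fz hN x) = PP hN x w +
    ∑ l : Fin 9, if io hN (jl l) = w then PP hN x (io hN (il l)) * C (pp hN x l) else 0 := by
  have h1 := chain ((pderiv w : Derivation Ω (MvPolynomial (Fin N) Ω)
    (MvPolynomial (Fin N) Ω)).restrictScalars (kz hN x)) (sb hN (pp hN x)) (fk hN x)
  rw [aeval_fk] at h1
  have h2 : pderiv w (fz hN x) = ∑ v, PP hN x v * pderiv w (sb hN (pp hN x) v) := h1
  rw [h2]
  simp only [pd_sb, mul_add, Finset.sum_add_distrib, Finset.mul_sum]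
  congr 1
  · rw [Finset.sum_eq_single w]
    · rw [if_pos rfl, mul_one]
    · intro v _ hv
      rw [if_neg hv, mul_zero]
    · simp
  · rw [Finset.sum_comm]
    refine Finset.sum_congr rfl fun l _ => ?_
    rw [Finset.sum_eq_single (io hN (il l))]
    · rw [if_pos rfl]
      split_ifs
      · rfl
      · rw [mul_zero]
    · intro v _ hv
      rw [if_neg (Ne.symm hv), mul_zero]
    · simp

lemma pd_other (j : Fin 6) (hj : ∀ l, jl l ≠ j) : pderiv (io hN j) (fz hN x) = PP hN x (io hN j) := by
  rw [main2, Finset.sum_eq_zero, add_zero]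
  intro l _
  rw [if_neg]
  rw [io_inj]
  exact hj l

lemma pd_two : pderiv (io hN 2) (fz hN x) = PP hN x (io hN 2) +
    (PP hN x (io hN 3) * C (pp hN x 7) + PP hN x (io hN 4) * C (pp hN x 8)) := by
  rw [main2]
  congr 1
  simp only [io_inj]
  simp [Fin.sum_univ_succ, il, jl]

/-- the modified derivatives -/
noncomputable def uu : Fin 9 → Ω := ![D (pp hN x 0) - pp hN x 7 * D (pp hN x 2),
  D (pp hN x 1) - pp hN x 7 * D (pp hN x 3), D (pp hN x 2), D (pp hN x 3),
  D (pp hN x 4) - pp hN x 8 * D (pp hN x 2), D (pp hN x 5) - pp hN x 8 * D (pp hN x 3),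
  D (pp hN x 6), D (pp hN x 7), D (pp hN x 8)]

lemma main3 : cD D (fz hN x) =
    ∑ l : Fin 9, (pderiv (io hN (il l)) (fz hN x) * X (io hN (jl l))) * C (uu hN x D l) := by
  rw [main1]
  have h3 := pd_other hN x 3 (by decide)
  have h4 := pd_other hN x 4 (by decide)
  have h5 := pd_other hN x 5 (by decide)
  have h2 := pd_two hN x
  simp only [Fin.sum_univ_succ, il, jl, uu]
  simp
  rw [h2, h3, h4, h5]
  ring

lemma mulVec_uu : (MM hN x).mulVec (uu hN x D) = 0 := by
  funext k
  have h1 := congrArg (coeff (vec hN (mu k))) (main3 hN x D)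
  rw [coeff_cD, coeff_fz0 hN x ⟨k, rfl⟩, map_zero, coeff_sum] at h1
  rw [Matrix.mulVec, dotProduct, Pi.zero_apply, h1]
  refine Finset.sum_congr rfl fun l _ => ?_
  rw [mul_comm _ (C _), coeff_C_mul, mul_comm]
  rfl

variable {x}

lemma D_pp (hx : AlgebraicIndependent ℚ x) (k : Fin 9) : D (pp hN x k) = 0 := by
  have h0 := Matrix.eq_zero_of_mulVec_eq_zero (det_ne hN hx) (mulVec_uu hN x D)
  have e2 : D (pp hN x 2) = 0 := congrFun h0 2
  have e3 : D (pp hN x 3) = 0 := congrFun h0 3
  have e0 : D (pp hN x 0) = 0 := by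
    have h1 : D (pp hN x 0) - pp hN x 7 * D (pp hN x 2) = 0 := congrFun h0 0
    rwa [e2, mul_zero, sub_zero] at h1
  have e1 : D (pp hN x 1) = 0 := by
    have h1 : D (pp hN x 1) - pp hN x 7 * D (pp hN x 3) = 0 := congrFun h0 1
    rwa [e3, mul_zero, sub_zero] at h1
  have e4 : D (pp hN x 4) = 0 := by
    have h1 : D (pp hN x 4) - pp hN x 8 * D (pp hN x 2) = 0 := congrFun h0 4
    rwa [e2, mul_zero, sub_zero] at h1
  have e5 : D (pp hN x 5) = 0 := by
    have h1 : D (pp hN x 5) - pp hN x 8 * D (pp hN x 3) = 0 := congrFun h0 5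
    rwa [e3, mul_zero, sub_zero] at h1
  have e6 : D (pp hN x 6) = 0 := congrFun h0 6
  have e7 : D (pp hN x 7) = 0 := congrFun h0 7
  have e8 : D (pp hN x 8) = 0 := congrFun h0 8
  have hall : ∀ k : Fin 9, k = 0 ∨ k = 1 ∨ k = 2 ∨ k = 3 ∨ k = 4 ∨ k = 5 ∨ k = 6 ∨ k = 7 ∨ k = 8 := by
    decide
  rcases hall k with h | h | h | h | h | h | h | h | h
  · rw [h]; exact e0
  · rw [h]; exact e1
  · rw [h]; exact e2
  · rw [h]; exact e3
  · rw [h]; exact e4
  · rw [h]; exact e5
  · rw [h]; exact e6
  · rw [h]; exact e7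
  · rw [h]; exact e8

lemma D_all (hx : AlgebraicIndependent ℚ x) (d : Ex N) : D (x d) = 0 := by
  by_cases h : E0 hN d.1
  · obtain ⟨d, hd⟩ := d
    obtain ⟨k, h⟩ := h
    subst h
    exact D_pp hN D hx k
  · have h1 := congrArg (coeff d.1) (main1 hN x D)
    simp only [D_pp hN D hx, map_zero, zero_mul, mul_zero, Finset.sum_const_zero,
      coeff_zero] at h1
    rw [coeff_cD, coeff_fz hN x d.2 h] at h1
    exact h1

end der

variable {x}

/-- **The parameters are algebraic over the coefficients.** -/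
theorem alg_x (hx : AlgebraicIndependent ℚ x) (d : Ex N) : IsAlgebraic (kz hN x) (x d) := by
  by_contra h
  obtain ⟨D, hD⟩ := _root_.H497R2.exists_derivation (kz hN x) Ω h
  rw [D_all hN D hx d] at hD
  exact zero_ne_one hD

end Pool.Agent.K9h33.SXT
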