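import Pool.Agent.K9h33.SXT.Gen2
import Pool.Agent.K9h33.NOD.Gen5

/-!
General sextics contain a line with an asymptotic direction in special position, after a linear
substitution.
-/

set_option autoImplicit false
set_option linter.unusedSectionVars false
set_option linter.unusedVariables false
set_option linter.unusedSimpArgs false

open MvPolynomial Filter Pool.Agent.K9h33.SYM

namespace Pool.Agent.K9h33.SXT

variable {N : ℕ} (hN : 6 ≤ N)

/-- the universal field -/
abbrev U0 (N : ℕ) : Type := AlgebraicClosure (FractionRing (MvPolynomial (Ex N) ℚ))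

/-- the generic parameters -/
noncomputable def xg (d : Ex N) : U0 N :=
  algebraMap (FractionRing (MvPolynomial (Ex N) ℚ)) _ (algebraMap (MvPolynomial (Ex N) ℚ) _ (X d))

lemma tb_xg : IsTranscendenceBasis ℚ (xg (N := N)) := by
  have h1 : IsTranscendenceBasis ℚ (X : Ex N → MvPolynomial (Ex N) ℚ) :=
    IsTranscendenceBasis.mvPolynomial _ ℚ
  have : Algebra.IsAlgebraic (MvPolynomial (Ex N) ℚ)
    (FractionRing (MvPolynomial (Ex N) ℚ)) := IsLocalization.isAlgebraic _
      (nonZeroDivisors (MvPolynomial (Ex N) ℚ))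
  have h2 := h1.algebraMap_comp (A := FractionRing (MvPolynomial (Ex N) ℚ))
  have h3 := h2.algebraMap_comp (A := U0 N)
  exact h3

/-- the ring generated by the coefficients -/
noncomputable abbrev R0 : Subalgebra ℚ (U0 N) :=
  Algebra.adjoin ℚ (Set.range (co hN (xg (N := N))))

open scoped IntermediateField.algebraAdjoinAdjoin in
lemma alg_R0 : Algebra.IsAlgebraic (R0 hN) (U0 N) := by
  rw [tb_xg.isAlgebraic_iff]
  intro d
  have h1 := alg_x hN tb_xg.1 d
  exact (IsFractionRing.isAlgebraic_iff (R0 hN) (kz hN (xg (N := N))) (U0 N)).2 h1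

lemma tb_co : IsTranscendenceBasis ℚ (co hN (xg (N := N))) := by
  have := alg_R0 hN
  apply Algebra.IsAlgebraic.isTranscendenceBasis_of_lift_le_trdeg_of_finite
  rw [← tb_xg.lift_cardinalMk_eq_trdeg]

/-- a line with an asymptotic direction in special position, after a linear substitution -/
structure Good {R : Type} [CommRing R] (f : MvPolynomial (Fin N) R) (p : Fin 9 → R) : Prop where
  zero : ∀ k : Fin 9, coeff (vec hN (mu k)) (aeval (sb hN p) f) = 0
  cube : coeff (vec hN ![3, 0, 3, 0, 0, 0]) (aeval (sb hN p) f) ≠ 0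
  mix : coeff (vec hN ![4, 1, 1, 0, 0, 0]) (aeval (sb hN p) f) ≠ 0

/-- **Generic sextics contain a line with an asymptotic direction.** -/
theorem good_generic {Ω : Type} [Field Ω] [CharZero Ω] [IsAlgClosed Ω]
    {f : MvPolynomial (Fin N) Ω} (hf : f.IsHomogeneous 6)
    (hind : AlgebraicIndependent ℚ fun d : Ex N => coeff d.1 f) : ∃ p, Good hN f p := by
  have hco := (tb_co hN).1
  have halg := alg_R0 hN
  let ρ : R0 hN →ₐ[ℚ] Ω := (aeval fun d : Ex N => coeff d.1 f).comp hco.aevalEquiv.symm.toAlgHom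
  have h0 : Function.Injective (aeval (R := ℚ) fun d : Ex N => coeff d.1 f) := hind
  have hρ : Function.Injective ρ := h0.comp hco.aevalEquiv.symm.injective
  let : Algebra (R0 hN) Ω := ρ.toRingHom.toAlgebra
  have : Module.IsTorsionFree (R0 hN) Ω := Module.isTorsionFree_iff_algebraMap_injective.2 hρ
  let ψ : U0 N →ₐ[R0 hN] Ω := IsAlgClosed.lift
  have hψ : ∀ d : Ex N, ψ (co hN (xg (N := N)) d) = coeff d.1 f := by
    intro d
    have h1 := ψ.commutes ⟨co hN (xg (N := N)) d, Algebra.subset_adjoin (Set.mem_range_self d)⟩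
    refine h1.trans ?_
    change ρ _ = _
    have h2 : hco.aevalEquiv (X d) = ⟨co hN (xg (N := N)) d,
      Algebra.subset_adjoin (Set.mem_range_self d)⟩ := by
      apply Subtype.ext
      simp
    rw [← h2]
    change aeval _ (hco.aevalEquiv.symm (hco.aevalEquiv (X d))) = _
    rw [AlgEquiv.symm_apply_apply, aeval_X]
  have hmap : map ψ.toRingHom (fo hN (xg (N := N))) = f := by
    rw [← sum_hom (hom_fo hN (xg (N := N))), map_sum]
    simp only [map_monomial]
    refine Eq.trans ?_ (sum_hom hf)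
    refine Finset.sum_congr rfl fun d _ => ?_
    congr 1
    exact hψ d
  have hx : ∀ d : Ex N, ψ.toRingHom (xg d) ≠ 0 := fun d => by
    rw [Ne, map_eq_zero]
    exact tb_xg.1.ne_zero d
  have hg : aeval (sb hN fun k => ψ.toRingHom (pp hN xg k)) f =
      map ψ.toRingHom (fz hN (xg (N := N))) := by
    rw [← sb_fo hN xg, map_aeval_sb, hmap]
  refine ⟨fun k => ψ.toRingHom (pp hN xg k), ⟨?_, ?_, ?_⟩⟩
  · intro k
    rw [hg, coeff_map, coeff_fz0 hN _ ⟨k, rfl⟩, map_zero]
  · rw [hg, coeff_map, coeff_fz hN _ (by rw [vec_degree]; decide)]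
    · exact hx _
    · rintro ⟨k, hk⟩
      rw [vec_inj] at hk
      revert hk
      revert k
      decide
  · rw [hg, coeff_map, coeff_fz hN _ (by rw [vec_degree]; decide)]
    · exact hx _
    · rintro ⟨k, hk⟩
      rw [vec_inj] at hk
      revert hk
      revert k
      decide

lemma hom_sum {R : Type} [CommRing R] (a : Ex N → R) :
    (∑ d : Ex N, monomial d.1 (a d)).IsHomogeneous 6 :=
  IsHomogeneous.sum _ _ _ fun d _ => isHomogeneous_monomial _ d.2

lemma coeff_sum' {R : Type} [CommRing R] (a : Ex N → R) (d : Ex N) :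
    coeff d.1 (∑ d : Ex N, monomial d.1 (a d)) = a d := by
  classical
  rw [coeff_sum, Finset.sum_eq_single d]
  · rw [coeff_monomial, if_pos rfl]
  · intro b _ hb
    rw [coeff_monomial, if_neg]
    exact fun h => hb (Subtype.ext h)
  · simp

/-- **General sextics contain a line with an asymptotic direction.** -/
theorem good_open (K : Type) [Field K] [CharZero K] [IsAlgClosed K] :
    ∃ Φ : MvPolynomial (Ex N) ℚ, Φ ≠ 0 ∧
      ∀ f : MvPolynomial (Fin N) K, f.IsHomogeneous 6 →
        aeval (fun d : Ex N => coeff d.1 f) Φ ≠ 0 → ∃ p, Good hN f p := by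
  by_contra hcon
  push Not at hcon
  have hne : Nonempty {Φ : MvPolynomial (Ex N) ℚ // Φ ≠ 0} := ⟨⟨1, one_ne_zero⟩⟩
  have hcount : Countable {Φ : MvPolynomial (Ex N) ℚ // Φ ≠ 0} := by
    have : Countable (MvPolynomial (Ex N) ℚ) := by
      rw [← Cardinal.mk_le_aleph0_iff]
      refine (MvPolynomial.cardinalMk_le_max).trans ?_
      simp
    infer_instance
  obtain ⟨Φs, hΦs⟩ := exists_surjective_nat {Φ : MvPolynomial (Ex N) ℚ // Φ ≠ 0}
  have hP : ∀ n, ∏ k ∈ Finset.range (n + 1), (Φs k).1 ≠ 0 := fun n =>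
    Finset.prod_ne_zero_iff.2 fun k _ => (Φs k).2
  choose f hf hfP hbad using fun n => hcon _ (hP n)
  let u : ℕ → Ex N → K := fun n d => coeff d.1 (f n)
  let F : MvPolynomial (Fin N) (UP K) := ∑ d : Ex N, monomial d.1 (uc fun n => u n d)
  let FF : MvPolynomial (Fin N) (ℕ → K) := ∑ d : Ex N, monomial d.1 (fun n => u n d)
  have hF : F.IsHomogeneous 6 := hom_sum _
  have hFF : map uc FF = F := by
    rw [map_sum]
    simp only [map_monomial]
    rfl
  have hFn : ∀ n, map (Pi.evalRingHom (fun _ : ℕ => K) n) FF = f n := by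
    intro n
    rw [map_sum]
    simp only [map_monomial]
    exact sum_hom (hf n)
  have hind : AlgebraicIndependent ℚ fun d : Ex N => coeff d.1 F := by
    have h0 : (fun d : Ex N => coeff d.1 F) = fun d => uc fun n => u n d := by
      funext d
      exact coeff_sum' _ d
    rw [h0, algebraicIndependent_iff]
    intro Φ h1
    by_contra h2
    rw [Pool.Agent.K9h33.NOD.aeval_rat, uc_zero] at h1
    obtain ⟨k, hk⟩ := hΦs ⟨Φ, h2⟩
    have h3 : ∀ᶠ j in (UF : Filter ℕ), k ≤ j :=
      Nat.hyperfilter_le_atTop (eventually_ge_atTop k)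
    obtain ⟨n, hn, hn'⟩ := (h1.and h3).exists
    apply hfP n
    rw [map_prod]
    refine Finset.prod_eq_zero (Finset.mem_range.2 (Nat.lt_succ_of_le hn')) ?_
    rw [hk]
    exact hn
  have := isAlgClosed_UP (K := K)
  obtain ⟨p, hG⟩ := good_generic hN hF hind
  choose p' hp' using fun o => uc_surj (p o)
  obtain rfl : (fun o => uc (p' o)) = p := funext hp'
  let G : MvPolynomial (Fin N) (ℕ → K) := aeval (sb hN p') FF
  have hG1 : aeval (sb hN fun o => uc (p' o)) F = map uc G := by
    rw [map_aeval_sb, hFF]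
  have hG2 : ∀ n, aeval (sb hN fun o => p' o n) (f n) =
      map (Pi.evalRingHom (fun _ : ℕ => K) n) G := by
    intro n
    rw [map_aeval_sb, hFn]
    rfl
  have hz : ∀ d, coeff d (aeval (sb hN fun o => uc (p' o)) F) = 0 →
      ∀ᶠ n in (UF : Filter ℕ), coeff d (aeval (sb hN fun o => p' o n) (f n)) = 0 := by
    intro d hd
    rw [hG1, coeff_map, uc_zero] at hd
    filter_upwards [hd] with n hn
    rw [hG2, coeff_map]
    exact hn
  have hnz : ∀ d, coeff d (aeval (sb hN fun o => uc (p' o)) F) ≠ 0 →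
      ∀ᶠ n in (UF : Filter ℕ), coeff d (aeval (sb hN fun o => p' o n) (f n)) ≠ 0 := by
    intro d hd
    rw [hG1, coeff_map, Ne, uc_zero] at hd
    have hd' := (Ultrafilter.eventually_not (f := UF)).2 hd
    filter_upwards [hd'] with n hn
    rw [hG2, coeff_map]
    exact hn
  have h1 : ∀ᶠ n in (UF : Filter ℕ), ∀ k : Fin 9,
      coeff (vec hN (mu k)) (aeval (sb hN fun o => p' o n) (f n)) = 0 := by
    rw [eventually_all]
    intro k
    exact hz _ (hG.zero k)
  obtain ⟨n, h3, h5, h6⟩ := (h1.and ((hnz _ hG.cube).and (hnz _ hG.mix))).exists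
  exact hbad n _ ⟨h3, h5, h6⟩

end Pool.Agent.K9h33.SXT
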