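import Pool.Agent.K9h33.SXT.Gen3
import Pool.Agent.K9h33.NOD.Gen6
import Pool.Agent.H952R2.Sextic.Parts

/-!
Double covers branched along general sextics: potential density.
-/

set_option autoImplicit false
set_option linter.unusedSectionVars false
set_option linter.unusedVariables false
set_option linter.unusedSimpArgs false

open MvPolynomial NumberField

namespace Pool.Agent.K9h33.SXT

open Pool.Agent.H952R2.Sextic Pool.Agent.H952R2.SexticDefs

variable {N : ℕ} (hN : 6 ≤ N)

section lines

variable {Ω : Type} [Field Ω]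

/-- the indicator of a set of variables -/
def ind (S : Finset (Fin N)) (v : Fin N) : Ω := if v ∈ S then 1 else 0

/-- lines in the directions of the coordinates -/
lemma coeff_lp {G : MvPolynomial (Fin N) Ω} (hG : G.IsHomogeneous 6) (i : Fin N)
    (S : Finset (Fin N)) (hi : i ∉ S) (k : ℕ) :
    (lp G (ind {i}) (ind (Ω := Ω) S)).coeff k = ∑ d : Ex N,
      if (∀ v, v ≠ i → v ∉ S → d.1 v = 0) ∧ ∑ v ∈ S, d.1 v = k then coeff d.1 G else 0 := by
  classical
  conv_lhs => rw [← sum_hom hG]
  rw [Pool.Agent.H952R2.Sextic.lp, map_sum, Polynomial.finsetSum_coeff]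
  refine Finset.sum_congr rfl fun d _ => ?_
  rw [aeval_monomial, Finsupp.prod_fintype _ _ (fun _ => pow_zero _)]
  by_cases h : ∀ v, v ≠ i → v ∉ S → d.1 v = 0
  · have h1 : ∀ v, (Polynomial.C (ind (Ω := Ω) {i} v) +
        Polynomial.C (ind (Ω := Ω) S v) * Polynomial.X) ^ d.1 v =
        if v ∈ S then (Polynomial.X : Polynomial Ω) ^ d.1 v else 1 := by
      intro v
      by_cases hv : v ∈ S
      · have hvi : v ≠ i := fun h => hi (h ▸ hv)
        simp [ind, hv, hvi]
      · by_cases hvi : v = i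
        · simp [ind, hv, hvi]
          rw [if_neg hi]
          simp [hi]
        · rw [if_neg hv, h v hvi hv, pow_zero]
    rw [Finset.prod_congr rfl fun v _ => h1 v, Finset.prod_ite_mem, Finset.univ_inter,
      Finset.prod_pow_eq_pow_sum, Polynomial.algebraMap_eq, Polynomial.coeff_C_mul,
      Polynomial.coeff_X_pow]
    by_cases h2 : k = ∑ v ∈ S, d.1 v
    · rw [if_pos h2, if_pos ⟨h, h2.symm⟩, mul_one]
    · rw [if_neg h2, if_neg fun h3 => h2 h3.2.symm, mul_zero]
  · rw [if_neg fun h3 => h h3.1]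
    push Not at h
    obtain ⟨v, h1, h2, h3⟩ := h
    rw [Finset.prod_eq_zero (Finset.mem_univ v), mul_zero, Polynomial.coeff_zero]
    simp [ind, h1, h2, h3]

lemma vec_of {d : Fin N →₀ ℕ} (h : ∀ v, v ≠ io hN 0 → v ≠ io hN 1 → v ≠ io hN 2 → d v = 0) :
    d = vec hN ![d (io hN 0), d (io hN 1), d (io hN 2), 0, 0, 0] := by
  ext v
  by_cases h0 : v = io hN 0
  · subst h0
    rw [vec_apply]
    rfl
  by_cases h1 : v = io hN 1
  · subst h1
    rw [vec_apply]
    rfl
  by_cases h2 : v = io hN 2
  · subst h2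
    rw [vec_apply]
    rfl
  rw [h v h0 h1 h2, vec, Finset.sum_apply']
  symm
  apply Finset.sum_eq_zero
  intro j _
  rw [Finsupp.single_apply]
  split_ifs with h3
  · have h4 : j ≠ 0 := fun h => h0 (by rw [← h3, h])
    have h5 : j ≠ 1 := fun h => h1 (by rw [← h3, h])
    have h6 : j ≠ 2 := fun h => h2 (by rw [← h3, h])
    revert h4 h5 h6
    clear h3 h0 h1 h2
    fin_cases j <;> simp
  · rfl

lemma deg_vec {a b c : ℕ} {d : Ex N} (h : d.1 = vec hN ![a, b, c, 0, 0, 0]) : a + b + c = 6 := by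
  have h1 := d.2
  rw [h, vec_degree] at h1
  simp [Fin.sum_univ_succ] at h1
  omega

lemma mu_lt (b : ℕ) (hb : b ≤ 6) : ∃ k : Fin 9, mu k = ![6 - b, b, 0, 0, 0, 0] := by
  interval_cases b
  · exact ⟨0, rfl⟩
  · exact ⟨1, rfl⟩
  · exact ⟨2, rfl⟩
  · exact ⟨3, rfl⟩
  · exact ⟨4, rfl⟩
  · exact ⟨5, rfl⟩
  · exact ⟨6, rfl⟩

variable {G : MvPolynomial (Fin N) Ω} (hG : G.IsHomogeneous 6)
  (hz : ∀ k : Fin 9, coeff (vec hN (mu k)) G = 0)

include hG hz

/-- the first two vectors span a line on the sextic -/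
lemma line_zero : lp G (ind {io hN 0}) (ind (Ω := Ω) {io hN 1}) = 0 := by
  ext k
  rw [coeff_lp hG _ _ (by rw [Finset.mem_singleton, io_inj]; decide), Polynomial.coeff_zero]
  refine Finset.sum_eq_zero fun d _ => ?_
  split_ifs with h
  · obtain ⟨h1, h2⟩ := h
    have h3 := vec_of hN (d := d.1) fun v hv0 hv1 _ =>
      h1 v hv0 (by rw [Finset.mem_singleton]; exact hv1)
    have h4 : d.1 (io hN 2) = 0 := h1 _ (by rw [Ne, io_inj]; decide)
      (by rw [Finset.mem_singleton, io_inj]; decide)
    have h5 := deg_vec hN h3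
    rw [h4] at h3 h5
    obtain ⟨k, hk⟩ := mu_lt (d.1 (io hN 1)) (by omega)
    have h6 : 6 - d.1 (io hN 1) = d.1 (io hN 0) := by omega
    rw [h6] at hk
    rw [h3, ← hk]
    exact hz k
  · rfl

lemma dir_zero {k : ℕ} (hk : k = 1 ∨ k = 2) :
    (lp G (ind {io hN 0}) (ind (Ω := Ω) {io hN 2})).coeff k = 0 := by
  rw [coeff_lp hG _ _ (by rw [Finset.mem_singleton, io_inj]; decide)]
  refine Finset.sum_eq_zero fun d _ => ?_
  split_ifs with h
  · obtain ⟨h1, h2⟩ := h
    rw [Finset.sum_singleton] at h2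
    have h3 := vec_of hN (d := d.1) fun v hv0 _ hv2 =>
      h1 v hv0 (by rw [Finset.mem_singleton]; exact hv2)
    have h4 : d.1 (io hN 1) = 0 := h1 _ (by rw [Ne, io_inj]; decide)
      (by rw [Finset.mem_singleton, io_inj]; decide)
    have h5 := deg_vec hN h3
    rw [h4, h2] at h3 h5
    rcases hk with rfl | rfl
    · have h6 : d.1 (io hN 0) = 5 := by omega
      rw [h6] at h3
      rw [h3]
      exact hz 7
    · have h6 : d.1 (io hN 0) = 4 := by omega
      rw [h6] at h3
      rw [h3]
      exact hz 8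
  · rfl

omit hz in
lemma dir_three (h3 : coeff (vec hN ![3, 0, 3, 0, 0, 0]) G ≠ 0) :
    (lp G (ind {io hN 0}) (ind (Ω := Ω) {io hN 2})).coeff 3 ≠ 0 := by
  rw [coeff_lp hG _ _ (by rw [Finset.mem_singleton, io_inj]; decide)]
  rw [Finset.sum_eq_single ⟨vec hN ![3, 0, 3, 0, 0, 0], by rw [vec_degree]; decide⟩]
  · rw [if_pos]
    · exact h3
    · refine ⟨fun v hv0 hv2 => ?_, ?_⟩
      · have : vec hN ![3, 0, 3, 0, 0, 0] = Finsupp.single (io hN 0) 3 +
            Finsupp.single (io hN 2) 3 := by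
          rw [vec]
          simp [Fin.sum_univ_succ]
        change vec hN ![3, 0, 3, 0, 0, 0] v = 0
        rw [this, Finsupp.add_apply, Finsupp.single_apply, Finsupp.single_apply,
          if_neg (Ne.symm hv0), if_neg (by rw [Finset.mem_singleton] at hv2; exact Ne.symm hv2),
          add_zero]
      · rw [Finset.sum_singleton, vec_apply]
        rfl
  · intro d _ hd
    rw [if_neg]
    rintro ⟨h1, h2⟩
    rw [Finset.sum_singleton] at h2
    have h3 := vec_of hN (d := d.1) fun v hv0 _ hv2 =>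
      h1 v hv0 (by rw [Finset.mem_singleton]; exact hv2)
    have h4 : d.1 (io hN 1) = 0 := h1 _ (by rw [Ne, io_inj]; decide)
      (by rw [Finset.mem_singleton, io_inj]; decide)
    have h5 := deg_vec hN h3
    rw [h4, h2] at h3 h5
    have h6 : d.1 (io hN 0) = 3 := by omega
    rw [h6] at h3
    exact hd (Subtype.ext h3)
  · simp

lemma mix_two (h3 : coeff (vec hN ![4, 1, 1, 0, 0, 0]) G ≠ 0) :
    (lp G (ind {io hN 0}) (ind (Ω := Ω) {io hN 2, io hN 1})).coeff 2 ≠ 0 := by
  have h01 : io hN 0 ≠ io hN 1 := by rw [Ne, io_inj]; decide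
  have h02 : io hN 0 ≠ io hN 2 := by rw [Ne, io_inj]; decide
  have h21 : io hN 2 ≠ io hN 1 := by rw [Ne, io_inj]; decide
  rw [coeff_lp hG _ _ (by simp [h01, h02])]
  rw [Finset.sum_eq_single ⟨vec hN ![4, 1, 1, 0, 0, 0], by rw [vec_degree]; decide⟩]
  · rw [if_pos]
    · exact h3
    · refine ⟨fun v hv0 hv2 => ?_, ?_⟩
      · have : vec hN ![4, 1, 1, 0, 0, 0] = Finsupp.single (io hN 0) 4 +
            Finsupp.single (io hN 1) 1 + Finsupp.single (io hN 2) 1 := by
          rw [vec]
          simp [Fin.sum_univ_succ, add_assoc]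
        simp only [Finset.mem_insert, Finset.mem_singleton, not_or] at hv2
        change vec hN ![4, 1, 1, 0, 0, 0] v = 0
        rw [this, Finsupp.add_apply, Finsupp.add_apply, Finsupp.single_apply, Finsupp.single_apply,
          Finsupp.single_apply, if_neg (Ne.symm hv0), if_neg (Ne.symm hv2.2),
          if_neg (Ne.symm hv2.1), add_zero, add_zero]
      · rw [Finset.sum_pair h21, vec_apply, vec_apply]
        rfl
  · intro d _ hd
    split_ifs with h
    · obtain ⟨h1, h2⟩ := h
      rw [Finset.sum_pair h21] at h2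
      have h3 := vec_of hN (d := d.1) fun v hv0 hv1 hv2 =>
        h1 v hv0 (by simp [hv1, hv2])
      have h5 := deg_vec hN h3
      have h6 : d.1 (io hN 0) = 4 := by omega
      have h7 : d.1 (io hN 1) = 0 ∨ d.1 (io hN 1) = 1 ∨ d.1 (io hN 1) = 2 := by omega
      rcases h7 with h7 | h7 | h7
      · have h8 : d.1 (io hN 2) = 2 := by omega
        rw [h6, h7, h8] at h3
        rw [h3]
        exact hz 8
      · have h8 : d.1 (io hN 2) = 1 := by omega
        rw [h6, h7, h8] at h3
        exact absurd (Subtype.ext h3) hd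
      · have h8 : d.1 (io hN 2) = 0 := by omega
        rw [h6, h7, h8] at h3
        rw [h3]
        exact hz 2
    · rfl
  · simp

end lines

/-- the image of a vector under the substitution -/
noncomputable def im {Ω : Type} [Field Ω] (p : Fin 9 → Ω) (e : Fin N → Ω) (v : Fin N) : Ω :=
  eval e (sb hN p v)

lemma im_eq {Ω : Type} [Field Ω] (p : Fin 9 → Ω) (e : Fin N → Ω) (v : Fin N) :
    im hN p e v = e v + ∑ l : Fin 9, if io hN (il l) = v then p l * e (io hN (jl l)) else 0 := by
  rw [im, sb, map_add, eval_X, map_sum]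
  congr 1
  refine Finset.sum_congr rfl fun l _ => ?_
  split_ifs
  · rw [map_mul, eval_C, eval_X]
  · exact map_zero _

lemma lp_sb {K Ω : Type} [Field K] [Field Ω] [Algebra K Ω] (F : MvPolynomial (Fin N) K)
    (p : Fin 9 → Ω) (e D : Fin N → Ω) :
    lp F (im hN p e) (im hN p D) = lp (aeval (sb hN p) (map (algebraMap K Ω) F)) e D := by
  rw [← lp_map_algebraMap, Pool.Agent.H952R2.Sextic.lp, Pool.Agent.H952R2.Sextic.lp,
    MvPolynomial.comp_aeval_apply]
  congr 2
  funext v
  have h1 : ∀ l : Fin 9, aeval (fun j => Polynomial.C (e j) + Polynomial.C (D j) * Polynomial.X)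
      (if io hN (il l) = v then C (p l) * X (io hN (jl l)) else 0 : MvPolynomial (Fin N) Ω) =
      Polynomial.C (if io hN (il l) = v then p l * e (io hN (jl l)) else 0) +
      Polynomial.C (if io hN (il l) = v then p l * D (io hN (jl l)) else 0) * Polynomial.X := by
    intro l
    split_ifs
    · rw [map_mul, aeval_X, algHom_C, Polynomial.algebraMap_eq, Polynomial.C_mul, Polynomial.C_mul]
      ring
    · simp
  have h2 : aeval (fun j => Polynomial.C (e j) + Polynomial.C (D j) * Polynomial.X)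
      (sb hN p v) = (Polynomial.C (e v) + Polynomial.C (D v) * Polynomial.X) +
      (Polynomial.C (∑ l : Fin 9, if io hN (il l) = v then p l * e (io hN (jl l)) else 0) +
      Polynomial.C (∑ l : Fin 9, if io hN (il l) = v then p l * D (io hN (jl l)) else 0) *
        Polynomial.X) := by
    have h3 := map_add (aeval fun j => Polynomial.C (e j) + Polynomial.C (D j) * Polynomial.X)
      (X v : MvPolynomial (Fin N) Ω)
      (∑ l : Fin 9, if io hN (il l) = v then C (p l) * X (io hN (jl l)) else 0)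
    rw [sb]
    refine h3.trans ?_
    rw [aeval_X]
    congr 1
    rw [map_sum, Finset.sum_congr rfl fun l _ => h1 l,
      Finset.sum_add_distrib, ← Finset.sum_mul, ← map_sum, ← map_sum]
  rw [h2, im_eq, im_eq, Polynomial.C_add, Polynomial.C_add]
  ring

lemma im_add {Ω : Type} [Field Ω] (p : Fin 9 → Ω) (e f : Fin N → Ω) (v : Fin N) :
    im hN p (fun w => e w + f w) v = im hN p e v + im hN p f v := by
  rw [im_eq, im_eq, im_eq]
  have h1 : ∀ l : Fin 9, (if io hN (il l) = v then p l * (e (io hN (jl l)) + f (io hN (jl l)))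
      else 0) = (if io hN (il l) = v then p l * e (io hN (jl l)) else 0) +
      (if io hN (il l) = v then p l * f (io hN (jl l)) else 0) := by
    intro l
    split_ifs
    · ring
    · ring
  rw [Finset.sum_congr rfl fun l _ => h1 l, Finset.sum_add_distrib]
  ring

/-- **Double covers branched along general sextics: potential density.** -/
theorem sextic_open {n : ℕ} (hn : 6 ≤ n + 1) :
    ∃ Φ : MvPolynomial (Ex (n + 1)) ℚ, Φ ≠ 0 ∧
      ∀ (K : Type) [Field K] [NumberField K] (F : MvPolynomial (Fin (n + 1)) K),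
        IsSmoothSextic F → aeval (fun d : Ex (n + 1) => coeff d.1 F) Φ ≠ 0 →
          ∃ (L : Type) (_ : Field L) (_ : NumberField L) (_ : Algebra K L),
            DensePoints (map (algebraMap K L) F) := by
  classical
  obtain ⟨Φ, hΦ, hmain⟩ := good_open (N := n + 1) hn (AlgebraicClosure ℚ)
  refine ⟨Φ, hΦ, fun K _ _ F hF hFΦ => ?_⟩
  obtain ⟨hF6, hsm⟩ := hF
  let ι : K →ₐ[ℚ] AlgebraicClosure ℚ := IsAlgClosed.lift
  let : Algebra K (AlgebraicClosure ℚ) := ι.toRingHom.toAlgebra
  obtain ⟨p, hG⟩ := hmain (map (algebraMap K (AlgebraicClosure ℚ)) F) (hF6.map _) (by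
      have h1 : aeval (fun d : Ex (n + 1) =>
          coeff d.1 (map (algebraMap K (AlgebraicClosure ℚ)) F)) Φ =
          ι (aeval (fun d : Ex (n + 1) => coeff d.1 F) Φ) := by
        rw [MvPolynomial.comp_aeval_apply]
        congr 2
      rw [h1]
      exact (map_ne_zero ι).2 hFΦ)
  have : IsScalarTower ℚ K (AlgebraicClosure ℚ) := IsScalarTower.of_algebraMap_eq fun x =>
    (ι.commutes x).symm
  have := Pool.Agent.K9h33.NOD.alg_Q
  have : Algebra.IsAlgebraic K (AlgebraicClosure ℚ) := Algebra.IsAlgebraic.tower_top (K := ℚ) K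
  -- smoothness
  let κ : AlgebraicClosure ℚ →ₐ[K] AlgebraicClosure K := IsAlgClosed.lift
  have hsm' : ∀ x : Fin (n + 1) → AlgebraicClosure ℚ,
      (∀ j, aeval x (pderiv j F) = 0) → x = 0 := by
    intro x hx
    have h1 := hsm (fun j => κ (x j)) fun j => by
      rw [← MvPolynomial.comp_aeval_apply, hx j, map_zero]
    funext j
    exact (map_eq_zero κ).1 (congrFun h1 j)
  -- the points
  obtain ⟨G, hGdef⟩ : ∃ G, G = aeval (sb hn p) (map (algebraMap K (AlgebraicClosure ℚ)) F) :=
    ⟨_, rfl⟩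
  have hG6 : G.IsHomogeneous 6 := hGdef ▸ hom_aeval (hF6.map _) (hom_sb hn p)
  have hz : ∀ k : Fin 9, coeff (vec hn (mu k)) G = 0 := fun k => hGdef ▸ hG.zero k
  have hc : coeff (vec hn ![3, 0, 3, 0, 0, 0]) G ≠ 0 := hGdef ▸ hG.cube
  have hm : coeff (vec hn ![4, 1, 1, 0, 0, 0]) G ≠ 0 := hGdef ▸ hG.mix
  have hlp : ∀ e D : Fin (n + 1) → AlgebraicClosure ℚ,
      lp F (im hn p e) (im hn p D) = lp G e D := fun e D => hGdef ▸ lp_sb hn F p e D
  let a := im hn p (ind {io hn 0})
  let b := im hn p (ind {io hn 1})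
  let D := im hn p (ind {io hn 2})
  let S : Set (AlgebraicClosure ℚ) := Set.range a ∪ Set.range b
  let L : IntermediateField K (AlgebraicClosure ℚ) := IntermediateField.adjoin K S
  have : Finite S := ((Set.finite_range a).union (Set.finite_range b)).to_subtype
  have hfin : FiniteDimensional K L := IntermediateField.finiteDimensional_adjoin
    (fun x _ => (Algebra.IsAlgebraic.isAlgebraic (R := K) x).isIntegral)
  have hNF : NumberField L := NumberField.of_module_finite K L
  have haL : ∀ j, a j ∈ L := fun j => IntermediateField.subset_adjoin K S (Or.inl ⟨j, rfl⟩)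
  have hbL : ∀ j, b j ∈ L := fun j => IntermediateField.subset_adjoin K S (Or.inr ⟨j, rfl⟩)
  have him : ∀ (i j : Fin 6), (∀ l, il l ≠ j) → im hn p (ind {io hn i}) (io hn j) =
      if j = i then 1 else 0 := by
    intro i j hj
    rw [im, sb_fix hn p j hj, eval_X, ind]
    simp only [Finset.mem_singleton, io_inj]
  have a0 : a (io hn 0) = 1 := him 0 0 (by decide)
  have b0 : b (io hn 0) = 0 := him 1 0 (by decide)
  have b1 : b (io hn 1) = 1 := him 1 1 (by decide)
  have hline : lp F a b = 0 := (hlp _ _).trans (line_zero hn hG6 hz)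
  have hd1 : (lp F a D).coeff 1 = 0 := by
    rw [hlp]
    exact dir_zero hn hG6 hz (Or.inl rfl)
  have hd2 : (lp F a D).coeff 2 = 0 := by
    rw [hlp]
    exact dir_zero hn hG6 hz (Or.inr rfl)
  have hd3 : (lp F a D).coeff 3 ≠ 0 := by
    rw [hlp]
    exact dir_three hn hG6 hc
  have hd4 : (lp F a (fun j => D j + b j)).coeff 2 ≠ 0 := by
    have h1 : (fun j => D j + b j) = im hn p (ind {io hn 2, io hn 1}) := by
      funext j
      have h2 : (ind {io hn 2, io hn 1} : Fin (n + 1) → AlgebraicClosure ℚ) =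
          fun w => ind {io hn 2} w + ind {io hn 1} w := by
        funext w
        simp only [ind, Finset.mem_insert, Finset.mem_singleton]
        by_cases h3 : w = io hn 2
        · have h4 : w ≠ io hn 1 := by
            rw [h3, Ne, io_inj]
            decide
          simp [h3, h4]
        · simp [h3]
      rw [h2]
      exact (im_add hn p _ _ j).symm
    rw [h1, hlp]
    exact mix_two hn hG6 hz hm
  exact ⟨L, inferInstance, hNF, inferInstance,
    part2_aux K n F hF6 (AlgebraicClosure ℚ) hsm' L (fun j => ⟨a j, haL j⟩)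
      (fun j => ⟨b j, hbL j⟩) D (io hn 0) (io hn 1)
      (fun h => one_ne_zero (a0.symm.trans (congrArg Subtype.val h)))
      (Subtype.ext b0) (fun h => one_ne_zero (b1.symm.trans (congrArg Subtype.val h)))
      hline hd1 hd2 hd3 (polar_ne F a D b hline hd2 hd4)⟩

end Pool.Agent.K9h33.SXT
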