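import Mathlib

/-!
The substitutions which move a line with an asymptotic direction.
-/

set_option autoImplicit false
set_option linter.unusedSectionVars false
set_option linter.unusedVariables false
set_option linter.unusedSimpArgs false

open MvPolynomial

namespace Pool.Agent.K9h33.SXT

/-- the variables which are changed -/
def il : Fin 9 → Fin 6 := ![3, 3, 2, 2, 4, 4, 5, 3, 4]
/-- the variables which are added -/
def jl : Fin 9 → Fin 6 := ![0, 1, 0, 1, 0, 1, 1, 2, 2]
/-- the monomials which have to vanish -/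
def mu : Fin 9 → Fin 6 → ℕ := ![![6, 0, 0, 0, 0, 0], ![5, 1, 0, 0, 0, 0], ![4, 2, 0, 0, 0, 0],
  ![3, 3, 0, 0, 0, 0], ![2, 4, 0, 0, 0, 0], ![1, 5, 0, 0, 0, 0], ![0, 6, 0, 0, 0, 0],
  ![5, 0, 1, 0, 0, 0], ![4, 0, 2, 0, 0, 0]]

section sub

variable {N : ℕ} (hN : 6 ≤ N) {R : Type*} [CommRing R] (p : Fin 9 → R)

/-- the first six variables -/
abbrev io : Fin 6 → Fin N := Fin.castLE hN

lemma io_inj {i j : Fin 6} : io hN i = io hN j ↔ i = j := (Fin.castLE_injective hN).eq_iff

/-- the substitution -/
noncomputable def sb (v : Fin N) : MvPolynomial (Fin N) R :=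
  X v + ∑ l : Fin 9, if io hN (il l) = v then C (p l) * X (io hN (jl l)) else 0

/-- auxiliary linear forms -/
noncomputable def Yl (j : Fin 6) : MvPolynomial (Fin N) R :=
  if j = 2 then X (io hN 2) - C (p 2) * X (io hN 0) - C (p 3) * X (io hN 1) else X (io hN j)

/-- the inverse substitution -/
noncomputable def sbi (v : Fin N) : MvPolynomial (Fin N) R :=
  X v - ∑ l : Fin 9, if io hN (il l) = v then C (p l) * Yl hN p (jl l) else 0

lemma sb_fix (j : Fin 6) (hj : ∀ l, il l ≠ j) : sb hN p (io hN j) = X (io hN j) := by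
  rw [sb, Finset.sum_eq_zero, add_zero]
  intro l _
  rw [if_neg]
  rw [io_inj]
  exact hj l

lemma sb_two : sb hN p (io hN 2) = X (io hN 2) + C (p 2) * X (io hN 0) + C (p 3) * X (io hN 1) := by
  rw [sb]
  simp only [io_inj]
  simp [Fin.sum_univ_succ, il, jl]
  ring

lemma sb_Yl (l : Fin 9) : aeval (sb hN p) (Yl hN p (jl l)) = X (io hN (jl l)) := by
  have h0 : sb hN p (io hN 0) = X (io hN 0) := sb_fix hN p 0 (by decide)
  have h1 : sb hN p (io hN 1) = X (io hN 1) := sb_fix hN p 1 (by decide)
  have h2 := sb_two hN p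
  have h3 : jl l = 0 ∨ jl l = 1 ∨ jl l = 2 := by
    revert l
    decide
  rcases h3 with h3 | h3 | h3
  · rw [h3, Yl, if_neg (by decide), aeval_X, h0]
  · rw [h3, Yl, if_neg (by decide), aeval_X, h1]
  · rw [h3, Yl, if_pos rfl]
    simp only [map_sub, map_mul, aeval_X, algHom_C, algebraMap_eq, h0, h1, h2]
    ring

lemma sb_sbi (v : Fin N) : aeval (sb hN p) (sbi hN p v) = X v := by
  rw [sbi, map_sub, aeval_X, map_sum]
  have h1 : ∀ l, aeval (sb hN p) (if io hN (il l) = v then C (p l) * Yl hN p (jl l) else 0) =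
      if io hN (il l) = v then C (p l) * X (io hN (jl l)) else 0 := by
    intro l
    split_ifs
    · rw [map_mul, sb_Yl, algHom_C, algebraMap_eq]
    · exact map_zero _
  rw [Finset.sum_congr rfl fun l _ => h1 l, sb, add_sub_cancel_right]

lemma sb_sbi' (f : MvPolynomial (Fin N) R) : aeval (sb hN p) (aeval (sbi hN p) f) = f := by
  have h1 : (aeval (sb hN p)).comp (aeval (sbi hN p)) = AlgHom.id R _ := by
    apply algHom_ext
    intro v
    simp only [AlgHom.comp_apply, aeval_X, AlgHom.id_apply]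
    exact sb_sbi hN p v
  exact DFunLike.congr_fun h1 f

lemma map_sb {S : Type*} [CommRing S] (φ : R →+* S) (v : Fin N) :
    map φ (sb hN p v) = sb hN (fun l => φ (p l)) v := by
  rw [sb, map_add, map_X, map_sum, sb]
  congr 1
  refine Finset.sum_congr rfl fun l _ => ?_
  split_ifs
  · rw [map_mul, map_C, map_X]
  · exact map_zero _

lemma map_aeval_sb {S : Type*} [CommRing S] (φ : R →+* S) (f : MvPolynomial (Fin N) R) :
    map φ (aeval (sb hN p) f) = aeval (sb hN fun l => φ (p l)) (map φ f) := by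
  induction f using MvPolynomial.induction_on with
  | C a => simp [algebraMap_eq]
  | add f g hf hg => rw [map_add, map_add, hf, hg, map_add, map_add]
  | mul_X f v hf => rw [map_mul, map_mul, hf, aeval_X, map_sb, map_mul, map_X, map_mul, aeval_X]

lemma hom_sb (v : Fin N) : (sb hN p v).IsHomogeneous 1 := by
  rw [sb]
  refine (isHomogeneous_X R v).add (IsHomogeneous.sum _ _ _ fun l _ => ?_)
  split_ifs
  · have := (isHomogeneous_C (Fin N) (p l)).mul (isHomogeneous_X R (io hN (jl l)))
    rwa [zero_add] at this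
  · exact isHomogeneous_zero _ _ _

lemma hom_Yl (j : Fin 6) : (Yl hN p j).IsHomogeneous 1 := by
  rw [Yl]
  have hc : ∀ (a : R) (v : Fin N), (C a * X v : MvPolynomial (Fin N) R).IsHomogeneous 1 := by
    intro a v
    have := (isHomogeneous_C (Fin N) a).mul (isHomogeneous_X R v)
    rwa [zero_add] at this
  split_ifs
  · exact ((isHomogeneous_X R _).sub (hc _ _)).sub (hc _ _)
  · exact isHomogeneous_X R _

lemma hom_sbi (v : Fin N) : (sbi hN p v).IsHomogeneous 1 := by
  rw [sbi]
  refine (isHomogeneous_X R v).sub (IsHomogeneous.sum _ _ _ fun l _ => ?_)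
  split_ifs
  · have := (isHomogeneous_C (Fin N) (p l)).mul (hom_Yl hN p (jl l))
    rwa [zero_add] at this
  · exact isHomogeneous_zero _ _ _

lemma hom_aeval {d : ℕ} {f : MvPolynomial (Fin N) R} (hf : f.IsHomogeneous d)
    {Y : Fin N → MvPolynomial (Fin N) R} (hY : ∀ v, (Y v).IsHomogeneous 1) :
    (aeval Y f).IsHomogeneous d := by
  have := hf.aeval Y hY
  rwa [one_mul] at this

end sub

section vec

variable {N : ℕ} (hN : 6 ≤ N)

/-- exponents in the first six variables -/
noncomputable def vec (v : Fin 6 → ℕ) : Fin N →₀ ℕ := ∑ i, Finsupp.single (io hN i) (v i)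

lemma vec_add (v w : Fin 6 → ℕ) : vec hN (v + w) = vec hN v + vec hN w := by
  rw [vec, vec, vec, ← Finset.sum_add_distrib]
  exact Finset.sum_congr rfl fun i _ => by rw [Pi.add_apply, Finsupp.single_add]

lemma vec_single (i : Fin 6) : vec hN (Pi.single i 1) = Finsupp.single (io hN i) 1 := by
  rw [vec, Finset.sum_eq_single i]
  · rw [Pi.single_eq_same]
  · intro j _ hj
    rw [Pi.single_eq_of_ne hj, Finsupp.single_zero]
  · simp

lemma vec_apply (v : Fin 6 → ℕ) (j : Fin 6) : vec hN v (io hN j) = v j := by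
  rw [vec, Finset.sum_apply', Finset.sum_eq_single j]
  · rw [Finsupp.single_eq_same]
  · intro i _ hi
    rw [Finsupp.single_apply, if_neg]
    rw [io_inj]
    exact hi
  · simp

lemma vec_inj {v w : Fin 6 → ℕ} : vec hN v = vec hN w ↔ v = w := by
  constructor
  · intro h
    funext j
    rw [← vec_apply hN v j, h, vec_apply]
  · rintro rfl
    rfl

lemma vec_degree (v : Fin 6 → ℕ) : (vec hN v).degree = ∑ i, v i := by
  rw [vec, map_sum]
  exact Finset.sum_congr rfl fun i _ => Finsupp.degree_single _ _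

end vec

end Pool.Agent.K9h33.SXT
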